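import Pool.Agent.MP_6a4325_al.H62.Base2

/-!
Row GNA: generic characters on finitely generated torsion free abelian normal subgroups.
-/

set_option autoImplicit false

namespace Pool.Agent.MP_6a4325_al.H85

open Pool.Agent.MP_6a4325_al.H62 Polynomial

/-- products for the Euclid sequence -/
noncomputable def eu (k : Type) [Field k] : ℕ → k[X]
  | 0 => X
  | n + 1 => eu k n * (eu k n + 1)

theorem eu_eval (k : Type) [Field k] (n : ℕ) : (eu k n).eval 0 = 0 := by
  induction n with
  | zero => simp [eu]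
  | succ n ih => simp [eu, ih]

theorem eu_succ_ne (k : Type) [Field k] (n : ℕ) : eu k n + 1 ≠ 0 := fun e => by
  have := congrArg (eval 0) e
  simp [eu_eval] at this

theorem eu_ne (k : Type) [Field k] (n : ℕ) : eu k n ≠ 0 := by
  induction n with
  | zero => exact X_ne_zero
  | succ n ih => exact mul_ne_zero ih (eu_succ_ne k n)

theorem eu_unit (k : Type) [Field k] (n : ℕ) : ¬ IsUnit (eu k n + 1) := fun h => by
  obtain ⟨c, -, e⟩ := Polynomial.isUnit_iff.1 h
  have h1 := congrArg (eval 0) e
  simp only [eval_C, eval_add, eu_eval, eval_one, zero_add] at h1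
  rw [h1, C_1] at e
  exact eu_ne k n (by simpa using e)

theorem eu_dvd (k : Type) [Field k] {n m : ℕ} (h : n < m) : eu k n + 1 ∣ eu k m := by
  induction h with
  | refl => exact Dvd.intro_left _ rfl
  | step _ ih => exact ih.mul_right _

theorem eu_cop (k : Type) [Field k] {n m : ℕ} (h : n ≠ m) :
    IsCoprime (eu k n + 1) (eu k m + 1) := by
  have key : ∀ {n m : ℕ}, n < m → IsCoprime (eu k n + 1) (eu k m + 1) := fun {n m} h => by
    obtain ⟨c, e⟩ := eu_dvd k h
    exact ⟨-c, 1, by rw [e]; ring⟩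
  rcases lt_or_gt_of_ne h with h | h
  · exact key h
  · exact (key h).symm

/-- a field of positive characteristic with an element of infinite order has multiplicative
rank at least countable -/
theorem indep (p : ℕ) [Fact p.Prime] (F : Type) [Field F] [CharP F p] (h : ¬ Absolute F) :
    ∃ w : ℕ → Additive Fˣ, LinearIndependent ℤ w := by
  classical
  let _ := ZMod.algebra F p
  obtain ⟨t, t0, ht⟩ : ∃ t : F, t ≠ 0 ∧ ¬ IsOfFinOrder t := by
    by_contra e
    exact h fun x hx => by_contra fun h' => e ⟨x, hx, h'⟩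
  have tr : Transcendental (ZMod p) t := fun ha => by
    have := IntermediateField.isAlgebraic_adjoin_simple ha.isIntegral
    have h1 := absolute_of_algebraic p (IntermediateField.adjoin (ZMod p) {t})
      ⟨t, IntermediateField.mem_adjoin_simple_self _ t⟩ fun e => t0 (congrArg Subtype.val e)
    obtain ⟨m, hm, e⟩ := isOfFinOrder_iff_pow_eq_one.1 h1
    exact ht (isOfFinOrder_iff_pow_eq_one.2 ⟨m, hm, congrArg Subtype.val e⟩)
  have inj : Function.Injective (aeval t : (ZMod p)[X] →ₐ[ZMod p] F) :=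
    transcendental_iff_injective.1 tr
  let u : ℕ → (ZMod p)[X] := fun n => eu (ZMod p) n + 1
  have u0 : ∀ n, aeval t (u n) ≠ 0 := fun n e => eu_succ_ne _ n (inj (e.trans (map_zero _).symm))
  let w : ℕ → Fˣ := fun n => Units.mk0 _ (u0 n)
  have key : ∀ (s : Finset ℕ) (g : ℕ → ℤ), ∏ i ∈ s, w i ^ g i = 1 → ∀ j ∈ s, g j ≤ 0 := by
    intro s g e j hj
    by_contra hg
    have h1 : ∏ i ∈ s, w i ^ (g i).toNat = ∏ i ∈ s, w i ^ (-g i).toNat := by
      rw [← mul_one (∏ i ∈ s, w i ^ (-g i).toNat), ← e, ← Finset.prod_mul_distrib]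
      refine Finset.prod_congr rfl fun i _ => ?_
      rw [← zpow_natCast, ← zpow_natCast, ← zpow_add]
      congr 1
      omega
    have h2 : ∏ i ∈ s, u i ^ (g i).toNat = ∏ i ∈ s, u i ^ (-g i).toNat := by
      apply inj
      have := congrArg (Units.coeHom F) h1
      simpa [map_prod, w] using this
    have h3 : u j ∣ ∏ i ∈ s, u i ^ (-g i).toNat :=
      h2 ▸ (dvd_pow_self _ (by omega)).trans (Finset.dvd_prod_of_mem _ hj)
    have h4 : IsCoprime (u j) (∏ i ∈ s, u i ^ (-g i).toNat) := by
      refine IsCoprime.prod_right fun i _ => ?_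
      by_cases e : j = i
      · subst e
        rw [show (-g j).toNat = 0 by omega, pow_zero]
        exact isCoprime_one_right
      · exact (eu_cop _ e).pow_right
    exact eu_unit _ j (h4.isUnit_of_dvd' dvd_rfl h3)
  refine ⟨fun n => Additive.ofMul (w n), linearIndependent_iff'.2 fun s g e j hj => ?_⟩
  have e1 : ∏ i ∈ s, w i ^ g i = 1 := by
    apply Additive.ofMul.injective
    rw [ofMul_prod]
    exact e
  have e2 : ∏ i ∈ s, w i ^ (-g i) = 1 := by
    simp only [zpow_neg, Finset.prod_inv_distrib, e1, inv_one]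
  have := key s g e1 j hj
  have := key s (fun i => -g i) e2 j hj
  omega

theorem gna : SCL → SGNA := by
  intro hcl p _ F H _ _ _ hF hW K Q _ f hf A hA hfg hc ht
  have hQ : W F Q := (hW.sub K).of_surj f hf
  obtain ⟨w, hw⟩ := indep p F hF
  let _ := hc.commGroup
  have : Group.FG A := (Group.fg_iff_subgroup_fg A).2 hfg
  have : Module.Finite ℤ (Additive A) := Module.Finite.iff_addGroup_fg.2 inferInstance
  have : IsMulTorsionFree A := by
    refine isMulTorsionFree_iff_not_isOfFinOrder.2 fun a ha hf => ha (Subtype.ext (ht a a.2 ?_))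
    exact A.subtype.isOfFinOrder hf
  let b := Module.Free.chooseBasis ℤ (Additive A)
  obtain ⟨e, he⟩ := Countable.exists_injective_nat (Module.Free.ChooseBasisIndex ℤ (Additive A))
  have hi := b.injective_constr_of_linearIndependent (R₂ := ℤ) (hw.comp e he)
  let χ : A →* Fˣ := AddMonoidHom.toMultiplicative.symm.symm
    (b.constr ℤ (w ∘ e)).toAddMonoidHom
  have hχ : Function.Injective χ := hi
  obtain ⟨ψ, h1, h2⟩ := exists_isCh χ
  obtain ⟨N, hN, h3⟩ := hcl F F Q hQ A hA hc ψ h1 fun x _ hx =>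
    ⟨MonoidAlgebra.single 1 (evc ψ 1 x)⁻¹, fun g hg => by
      rw [MonoidAlgebra.coeff_single] at hg
      rw [Finset.mem_singleton.1 (Finsupp.support_single_subset hg)]
      exact A.one_mem, by
      rw [evc, MonoidAlgebra.coeff_single, Finsupp.sum_single_index (by simp)]
      simp [h1.1, hx]⟩
  refine Subgroup.finiteIndex_of_le (H := N) fun g hg => ?_
  refine Subgroup.mem_centralizer_iff.2 fun a ha => ?_
  have h4 := h3 g hg a ha
  have h5 : χ ⟨_, hA.conj_mem a ha g⟩ = χ ⟨a, ha⟩ :=
    Units.ext ((h2 ⟨_, hA.conj_mem a ha g⟩).symm.trans (h4.trans (h2 ⟨a, ha⟩)))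
  have h6 : g * a * g⁻¹ = a := congrArg Subtype.val (hχ h5)
  exact (mul_inv_eq_iff_eq_mul.1 h6).symm

/-- a free abelian subgroup of infinite rank in the centre that meets `H` trivially -/
theorem free_centre {G : Type} [Group G] (H : Subgroup G) (h0 : (Subgroup.center G ⊓ H).FG)
    (hr : ¬ FinRk (Subgroup.center G)) :
    ∃ (s : Type) (η : Multiplicative (s →₀ ℤ) →* Subgroup.center G), Infinite s ∧
      ∀ n, (η n : G) ∈ H → n = 1 := by
  classical
  let Z := Subgroup.center G
  let _ : CommGroup Z := Cm.commGroup fun a _ b hb => Subgroup.mem_center_iff.1 hb a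
  let D : Subgroup Z := H.subgroupOf Z
  let v : Z → Additive (Z ⧸ D) := fun z => Additive.ofMul (QuotientGroup.mk z)
  obtain ⟨s, hs, hm⟩ := exists_maximal_linearIndepOn ℤ v
  let L : (s →₀ ℤ) →ₗ[ℤ] Additive Z :=
    Finsupp.linearCombination ℤ fun i : s => Additive.ofMul (i : Z)
  let π : Additive Z →ₗ[ℤ] Additive (Z ⧸ D) :=
    (MonoidHom.toAdditive (QuotientGroup.mk' D)).toIntLinearMap
  refine ⟨s, AddMonoidHom.toMultiplicativeLeft.symm.symm L.toAddMonoidHom, ?_, fun n hn => ?_⟩
  · by_contra hf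
    have hf' : s.Finite := not_infinite_iff_finite.1 hf
    obtain ⟨T, hT⟩ := h0
    refine hr ⟨T ∪ hf'.toFinset.image Subtype.val, fun t ht => ?_, fun z hz => ?_⟩
    · rcases Finset.mem_union.1 ht with ht | ht
      · exact (show t ∈ Subgroup.center G ⊓ H from hT ▸ Subgroup.subset_closure ht).1
      · obtain ⟨y, -, rfl⟩ := Finset.mem_image.1 ht
        exact y.2
    · set C := Subgroup.closure (↑(T ∪ hf'.toFinset.image Subtype.val) : Set G)
      have hs' : ∀ y ∈ s, (y : G) ∈ C := fun y hy => Subgroup.subset_closure (by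
        simp only [Finset.coe_union, Finset.coe_image, Set.Finite.coe_toFinset]
        exact Or.inr ⟨y, hy, rfl⟩)
      have hD : D ≤ C.subgroupOf Z := fun y hy => by
        have h1 : (y : G) ∈ Subgroup.closure (↑T : Set G) := hT ▸ ⟨y.2, hy⟩
        exact Subgroup.closure_mono (by simp) h1
      by_cases e : (⟨z, hz⟩ : Z) ∈ s
      · exact ⟨1, one_pos, by rw [pow_one]; exact hs' _ e⟩
      · obtain ⟨a, ha, h1⟩ := hm _ e
        have h2 : Submodule.span ℤ (v '' s) ≤
            ((C.subgroupOf Z).map (QuotientGroup.mk' D)).toAddSubgroup.toIntSubmodule :=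
          Submodule.span_le.2 fun _ ⟨y, hy, e⟩ => ⟨y, hs' y hy, e⟩
        have h3 : (⟨z, hz⟩ : Z) ^ a ∈ ((C.subgroupOf Z).map (QuotientGroup.mk' D)).comap
          (QuotientGroup.mk' D) := h2 h1
        rw [Subgroup.comap_map_eq, QuotientGroup.ker_mk', sup_eq_left.2 hD] at h3
        have h4 : z ^ a ∈ C := h3
        refine ⟨a.natAbs, Int.natAbs_pos.2 ha, ?_⟩
        rcases Int.natAbs_eq a with e | e
        · rw [← zpow_natCast, ← e]; exact h4
        · rw [e, zpow_neg, inv_mem_iff, zpow_natCast] at h4; exact h4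
  · have h1 : π (L n.toAdd) = 0 := (QuotientGroup.eq_one_iff (N := D) _).2 hn
    rw [Finsupp.apply_linearCombination] at h1
    exact hs (h1.trans (map_zero _).symm)

theorem gy : SGenC → SGY := by
  classical
  intro hg p _ G _ hW hL hr H hH K Q _ f hf A hA hfg hc ht
  obtain ⟨s, η, hs, hη⟩ := free_centre H (hL H hH _ inf_le_right) hr
  let Y := Multiplicative (s →₀ ℤ)
  let θ : K × Y →* G := MonoidHom.noncommCoprod (H.subtype.comp K.subtype)
    ((Subgroup.center G).subtype.comp η) fun k n => Subgroup.mem_center_iff.1 (η n).2 _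
  have hθ : Function.Injective θ := (injective_iff_map_eq_one θ).2 fun ⟨k, n⟩ e => by
    have e1 : ((k : H) : G) * η n = 1 := e
    have h1 : n = 1 := hη n (by rw [eq_inv_of_mul_eq_one_right e1]; exact H.inv_mem (k : H).2)
    rw [h1, map_one, OneMemClass.coe_one, mul_one] at e1
    exact Prod.ext (Subtype.ext (Subtype.ext e1)) h1
  have hQ : W (ZMod p) (Q × Y) := (hW.of_inj θ hθ).of_surj (f.prodMap (MonoidHom.id Y))
    (hf.prodMap Function.surjective_id)
  have h1 := hg p (Q × Y) hQ (A.prod ⊤) inferInstance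
    (fun a ha b hb => Prod.ext (hc _ ha.1 _ hb.1) (mul_comm _ _))
    (fun b hb hf => Prod.ext (ht _ hb.1 hf.fst) hf.snd.eq_one')
    (fun ⟨T, _, h⟩ => by
      obtain ⟨i, hi⟩ := Infinite.exists_notMem_finset (T.biUnion fun t => t.2.toAdd.support)
      obtain ⟨m, hm, e⟩ := h (1, Multiplicative.ofAdd (Finsupp.single i 1)) ⟨A.one_mem, trivial⟩
      let c : Q × Y →* Multiplicative ℤ :=
        (AddMonoidHom.toMultiplicative (Finsupp.applyAddHom i)).comp (MonoidHom.snd Q Y)
      have h2 : Subgroup.closure (↑T : Set (Q × Y)) ≤ c.ker := (Subgroup.closure_le _).2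
        fun t ht => by
          by_contra h3
          exact hi (Finset.mem_biUnion.2 ⟨t, ht, Finsupp.mem_support_iff.2 h3⟩)
      have h3 := h2 e
      rw [MonoidHom.mem_ker, map_pow] at h3
      have h4 := congrArg Multiplicative.toAdd h3
      simp [c] at h4
      omega)
  have h2 := finiteIndex_comap _ h1 (MonoidHom.inl Q Y)
  refine @Subgroup.finiteIndex_of_le _ _ _ _ h2
    fun g hg => Subgroup.mem_centralizer_iff.2 fun a ha => ?_
  exact congrArg Prod.fst (Subgroup.mem_centralizer_iff.1 hg (a, 1) ⟨ha, trivial⟩)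

end Pool.Agent.MP_6a4325_al.H85
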